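import Pool.Agent.H37.CTP.Stmts
import Pool.Agent.H33.CTO.P5H

/-!
# Board ctp, row R5H
-/

set_option autoImplicit false

namespace Pool.CND

open Finset Polynomial

open P5H in
theorem r5h_thm (mo1 : S_MO1) (mo2 : S_MO2) (mo3 : S_MO3) : S_R5H := by
  intro k F L _ _ _ _ _ _ _ f q s t X G₀ ρ Y Yt Yp h ζ θ P hchar hf hq hF hQ4 hX hN hO hY hw
    hθ0 hθQ hθi hθY hh hh0 hoh hYp
  classical
  have hp : (2 : ℕ).Prime := Nat.prime_two
  have : Fact (2 : ℕ).Prime := ⟨hp⟩
  have : CharP k 2 := hchar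
  have : CharP L 2 := charP_of_injective_algebraMap (algebraMap k L).injective 2
  obtain ⟨φ, hφ⟩ := frob (K := L) hp f q hq
  obtain ⟨φk, hφk⟩ := frob (K := k) hp f q hq
  have hA : ∀ w : G₀, w ∈ ram P ρ 1 → ρ w h = h ∧ (∀ l, ρ w (Y l) = Y l) ∧
      ρ w Yt = Yt + ∑ l, cst k F L (w.1.1 (mi s l) (Fin.last (s + 2))) * Y l := by
    intro w hw'
    have h1 := act (h := algebraMap k L ζ * t / Y 0) (ζ := ζ) hp hq hF hN hY rfl w (hw w hw').1
      (hw w hw').2.1 (hw w hw').2.2
    have ht : ρ w t = t := (hN.cov.fixed t).2 (IntermediateField.mem_adjoin_simple_self k t) w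
    refine ⟨?_, h1.2⟩
    rw [hh, map_div₀, map_mul, map_pow, map_pow, map_pow, AlgEquiv.commutes, ht, h1.2.1]
  refine ⟨hA, ?_⟩
  have hq2 : 2 ≤ q := by
    calc 2 = 2 ^ 1 := (pow_one 2).symm
      _ ≤ 2 ^ f := Nat.pow_le_pow_right (by norm_num) hf
      _ = q := hq.symm
  have hneg : (-1 : L) = 1 := by
    have h2 : (2 : L) = 0 := CharP.cast_eq_zero L 2
    linear_combination -h2
  have hY0 : Y 0 ≠ 0 := by
    intro h0
    rw [h0, zero_pow, div_zero] at hh
    · exact hh0 hh
    · omega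
  set e : ℤ := -P.ord h with he
  have hq1 : 1 ≤ q := by omega
  have hQ4' : (4 : ℤ) ≤ (q : ℤ) ^ (s + 1) := by exact_mod_cast hQ4
  have he0 : 0 < e := by
    by_contra hc
    rw [not_lt] at hc
    have h1 : (0 : ℤ) ≤ (q : ℤ) ^ (s + 1) - 1 := by omega
    have h2 : 0 ≤ P.ord h := by omega
    have h3 := mul_nonneg h1 h2
    rw [hoh] at h3
    have := hO.neg
    omega
  have h2e : 0 < 2 * e := by omega
  set θL : Fin (s + 1) → L := algebraMap k L ∘ θ with hθL
  set u : Fin (s + 1) → L := fun l => Y l / Y 0 with hu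
  have hYu : Y = fun i => Y 0 * u i := by
    funext i
    rw [hu]
    field_simp
  have huθ : ∀ l, P.Ge (u l - θL l) (2 * e) := by
    intro l
    rcases hθY l with h1 | h1
    · exact Or.inl (sub_eq_zero.2 h1)
    · refine Or.inr ?_
      rw [← hoh] at h1
      have h2 : (0 : ℤ) < (q : ℤ) ^ (s + 1) - 1 := by omega
      have h3 : ((q : ℤ) ^ (s + 1) - 1) * (2 * e) ≤
          ((q : ℤ) ^ (s + 1) - 1) * P.ord (u l - θL l) := by
        refine le_trans (le_of_eq ?_) h1
        rw [he]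
        ring
      exact le_of_mul_le_mul_left h3 h2
  have hθg : ∀ l, P.Ge (θL l) 0 := fun l => P.ge_const (θ l)
  have hug : ∀ l, P.Ge (u l) 0 := fun l => by
    have := P.ge_add (P.ge_mono (huθ l) h2e.le) (hθg l)
    rwa [sub_add_cancel] at this
  -- the Moore determinant of the constants
  have hM1 := mo1 2 k F L f q (s + 1) P θL (fun _ => 0) hp hchar hf hq hF (by
    intro i c hc _
    have h1 : ∑ j, cst k F L (c j) * θL j =
        algebraMap k L (∑ j, algebraMap F k (c j) * θ j) := by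
      rw [map_sum]
      refine sum_congr rfl fun j _ => ?_
      rw [map_mul]
      rfl
    have h2 : ∑ j, algebraMap F k (c j) * θ j ≠ 0 := fun h0 => hc (by rw [hθi c h0]; rfl)
    rw [h1]
    exact ⟨(_root_.map_ne_zero _).2 h2, P.ord_const _ h2⟩)
  obtain ⟨hMθ, hMθo⟩ := hM1
  have hMθo' : P.ord (Mo q (s + 1) θL) = 0 := by
    rw [hMθo]
    simp
  have hMmap : ∀ (m : ℕ) (v : Fin m → k), algebraMap k L (Mo q m v) = Mo q m (algebraMap k L ∘ v) :=
    fun m v => Mo_map (algebraMap k L) q m v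
  have hMθk : Mo q (s + 1) θ ≠ 0 := by
    intro h0
    apply hMθ
    rw [hθL, ← hMmap, h0, map_zero]
  have d1 : P.Ge (Mo q (s + 1) u - Mo q (s + 1) θL) (2 * e) :=
    or_ge P (mo3 k L P q (s + 1) u θL (2 * e) hq1 h2e.le hug hθg fun i => ge_or P (huθ i))
  have d2 : ∀ l : Fin (s + 1), P.Ge (Mo q s (u ∘ l.succAbove) - Mo q s (θL ∘ l.succAbove)) (2 * e) :=
    fun l => or_ge P (mo3 k L P q s (u ∘ l.succAbove) (θL ∘ l.succAbove) (2 * e) hq1 h2e.le
      (fun i => hug _) (fun i => hθg _) fun i => ge_or P (huθ _))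
  have d3 : ∀ l : Fin (s + 1), P.Ge (Mo q s (θL ∘ l.succAbove)) 0 := fun l => by
    have : Mo q s (θL ∘ l.succAbove) = algebraMap k L (Mo q s (θ ∘ l.succAbove)) := by
      rw [hMmap]
      rfl
    rw [this]
    exact P.ge_const _
  have hMu : Mo q (s + 1) u ≠ 0 := (div_congr P h2e hMθ hMθo' (d3 0) (d2 0) d1).1
  have hEθ : ∀ l, algebraMap k L (E q s θ l) =
      (-1) ^ (s + l.val) * (Mo q s (θL ∘ l.succAbove) / Mo q (s + 1) θL) := by
    intro l
    rw [E, map_mul, map_pow, map_neg, map_one, map_div₀, hMmap, hMmap]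
    rfl
  have dE : ∀ l, P.Ge (E q s u l - algebraMap k L (E q s θ l)) (2 * e) := by
    intro l
    rw [hEθ, E, ← mul_sub]
    have h1 := (div_congr P h2e hMθ hMθo' (d3 l) (d2 l) d1).2
    rw [hneg, one_pow, one_mul]
    exact h1
  have hMY : Mo q (s + 1) Y ≠ 0 := by
    rw [hYu, Mo_mul]
    exact mul_ne_zero (prod_ne_zero_iff.2 fun i _ => pow_ne_zero _ hY0) hMu
  obtain ⟨α, R, hR⟩ := mo2 2 k F L f q s Y hp hchar hf hq hF hMY
  have hRY : R Yt = Yp := by rw [hR.prod, hY.yp]
  have hEY : ∀ l, E q s Y l ^ q * Y 0 ^ q ^ (s + 1) = E q s u l ^ q := by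
    intro l
    have h1 := E_mul q s hY0 u l
    rw [← hYu] at h1
    rw [← h1, mul_pow, ← pow_mul, ← pow_succ]
  have hart : ∀ l, α l Yt ^ q - α l Yt = Yp / Y 0 ^ q ^ (s + 1) * E q s u l ^ q := by
    intro l
    rw [hR.art, hRY, ← hEY l, E, mul_pow, hneg, one_pow, one_pow]
    have : Y 0 ^ q ^ (s + 1) ≠ 0 := pow_ne_zero _ hY0
    field_simp
  set β : Fin (s + 1) → k := fun l => E q s θ l ^ q with hβ
  refine ⟨fun l => α l Yt, β, ?_, ?_, ?_⟩
  · intro c hc
    have h1 : (∑ l, algebraMap F k (c l) * E q s θ l) ^ q = 0 := by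
      have h2 := hφk 1 (∑ l, algebraMap F k (c l) * E q s θ l)
      rw [pow_one] at h2
      rw [← h2, map_sum, ← hc]
      refine sum_congr rfl fun l _ => ?_
      rw [map_mul, hφk, hφk, pow_one]
      congr 1
      rw [← map_pow]
      congr 1
      have hFc : Fintype.card F = q := by rw [← Nat.card_eq_fintype_card, hF]
      rw [← hFc, FiniteField.pow_card]
    have h3 := indep hp f q s hq θ hMθk (fun l => algebraMap F k (c l)) (fun l => by
      rw [← map_pow]
      congr 1
      have hFc : Fintype.card F = q := by rw [← Nat.card_eq_fintype_card, hF]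
      rw [← hFc, FiniteField.pow_card]) (pow_eq_zero_iff (by omega) |>.1 h1)
    funext l
    exact (_root_.map_eq_zero _).1 (congrFun h3 l)
  · intro w hw' l
    obtain ⟨hwh, hwY, hwt⟩ := hA w hw'
    have heq : ∀ x, (fun i => ρ w (α i x)) = fun i => α i (ρ w x) := by
      intro x
      refine uniq q s Y hMY _ _ fun j hj => ?_
      have h1 := congrArg (ρ w) (hR.sys x j hj)
      rw [map_pow, map_sum, hR.sys (ρ w x) j hj] at h1
      rw [h1]
      refine sum_congr rfl fun i _ => ?_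
      rw [map_mul, map_pow, hwY]
    have h2 : ρ w (α l Yt) = α l (ρ w Yt) := congrFun (heq Yt) l
    obtain ⟨al, hal⟩ : ∃ al : L →+ L, ∀ x, al x = α l x :=
      ⟨AddMonoidHom.mk' (α l) (hR.add l), fun _ => rfl⟩
    have h3 : α l (ρ w Yt) = α l Yt + cst k F L (w.1.1 (mi s l) (Fin.last (s + 2))) := by
      rw [hwt, ← hal, ← hal, map_add, map_sum, Finset.sum_eq_single l]
      · rw [hal, hal, hR.smul, hR.base, if_pos rfl, mul_one]
      · intro j _ hj
        rw [hal, hR.smul, hR.base, if_neg (Ne.symm hj), mul_zero]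
      · intro h0
        exact absurd (mem_univ _) h0
    simp only
    rw [h2, h3]
  · intro l
    have hb : P.Ge (algebraMap k L (β l)) 0 := P.ge_const _
    set W : L := Yp / Y 0 ^ q ^ (s + 1) with hW
    set ε : L := W - h ^ 2 with hε
    set δ : L := E q s u l ^ q - algebraMap k L (β l) with hδ
    have hεg : P.Ge ε e := hYp
    have hδg : P.Ge δ (q * (2 * e)) := by
      have h1 : δ = (E q s u l - algebraMap k L (E q s θ l)) ^ q := by
        have h2 := hφ 1 (E q s u l - algebraMap k L (E q s θ l))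
        rw [pow_one, map_sub, hφ, hφ, pow_one] at h2
        rw [← h2, hδ, hβ]
        simp only
        rw [map_pow]
      rw [h1]
      exact ge_pow P (dE l) q
    have hWg : P.Ge W (-(2 * e)) := by
      have h1 : W = h ^ 2 + ε := by rw [hε]; ring
      rw [h1]
      refine P.ge_add ?_ (P.ge_mono hεg (by omega))
      have := ge_pow P (P.ge_ord h) 2
      have h3 : ((2 : ℕ) : ℤ) * P.ord h = -(2 * e) := by
        rw [he]
        push_cast
        ring
      rwa [h3] at this
    have hfin : α l Yt ^ q - α l Yt - algebraMap k L (β l) * h ^ 2 =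
        ε * algebraMap k L (β l) + W * δ := by
      rw [hart, hδ, hε]
      ring
    simp only
    rw [hfin]
    refine P.ge_add ?_ ?_
    · have := P.ge_mul hεg hb
      exact P.ge_mono this (by omega)
    · refine P.ge_mono (P.ge_mul hWg hδg) ?_
      have : (2 : ℤ) ≤ q := by exact_mod_cast hq2
      nlinarith

end Pool.CND
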